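import Pool.Agent.V7H66.Blum.Main
import Pool.Agent.V7H66.Blum.Sanity

/-!
# Uniformly non-helping oracles for infinitely-often lower bounds

A positive answer to Q1: for every relative Blum measure there is a recursive function `g` of two
arguments such that for every recursive set `A` there are arbitrarily complex recursive sets `B`
with, for all recursive `t` at once: `Φ-Comp(A) >_io g □ t` implies `Φ^B-Comp(A) >_io t`.

Proof idea. The requirement for the index `i` (`φ_i^B` computes `A` too fast for `t`) is allowed to
change, in block `κ` of the construction, only digits of `B` that are at least `κ + 2 i + 1`. So, if
the requirement fails to diagonalise, then from some block on every finite oracle which agrees with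
the present approximation of `B` below that length gives only correct values of `c_A`, so that a
program which knows only the code of the construction, `i` and a finite table computes `A` without
an oracle, and does so (by a clocked simulation of the construction) as soon as the least such
finite oracle is found. The complexity of these countably many programs is bounded in terms of `x`
and of the time `t x` of the computation with the oracle `B`, uniformly in `A`, by one recursive
function `g`. Each requirement acts finitely often, with finite injury.
-/

set_option autoImplicit false

namespace Pool.Agent.Results.MP_674fd3_lc.UniformNonHelpingH66

open Pool.Agent.V7H66.Blum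

theorem result : ∀ M : RelBlum, ∃ g : ℕ → ℕ → ℕ, Computable₂ g ∧
    ∀ A : Set ℕ, ComputablePred (fun x => x ∈ A) → ∀ t' : ℕ → ℕ, Computable t' →
    ∃ B : Set ℕ, ComputablePred (fun x => x ∈ B) ∧ M.CompAE ∅ B t' ∧
      ∀ t : ℕ → ℕ, Computable t → M.CompIO ∅ A (fun x => g x (t x)) → M.CompIO B A t :=
  main

end Pool.Agent.Results.MP_674fd3_lc.UniformNonHelpingH66
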